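import Pool.Agent.Lib_helper99.IDP.Own

set_option autoImplicit false
open Finset

namespace Pool.Agent.Results.MP_2302e2_co.IdpNotUnimodal

/-- the point `z` of `ℤ^n`, seen in `ℝ^n` -/
def pt {n : ℕ} (z : Fin n → ℤ) : Fin n → ℝ := fun i => (z i : ℝ)

/-- `P` is a lattice polytope: the convex hull of a finite nonempty set of points of `ℤ^n` -/
def IsLatticePolytope {n : ℕ} (P : Set (Fin n → ℝ)) : Prop :=
  ∃ S : Set (Fin n → ℤ), S.Finite ∧ S.Nonempty ∧ P = convexHull ℝ (pt '' S)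

/-- the dimension of `P`: the dimension of its affine hull -/
noncomputable def dim {n : ℕ} (P : Set (Fin n → ℝ)) : ℕ :=
  Module.finrank ℝ (affineSpan ℝ P).direction

/-- the lattice points of the dilate `tP = {t p : p ∈ P}` -/
def latticePoints {n : ℕ} (P : Set (Fin n → ℝ)) (t : ℕ) : Set (Fin n → ℤ) :=
  {z | ∃ p ∈ P, pt z = (t : ℝ) • p}

/-- the integer decomposition property: for `t ≥ 1` every lattice point of `tP` is a sum of `t`
lattice points of `P` -/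
def IsIDP {n : ℕ} (P : Set (Fin n → ℝ)) : Prop :=
  ∀ t : ℕ, 1 ≤ t → ∀ x ∈ latticePoints P t,
    ∃ p : Fin t → (Fin n → ℤ), (∀ i, pt (p i) ∈ P) ∧ x = ∑ i, p i

/-- `h` is the h*-polynomial of `P`: with `d = dim P` and `i(P,t)` the number of lattice points of
`tP`, its degree is at most `d` and `∑_{t ≥ 0} i(P,t) z^t = h(z) / (1 - z)^(d+1)` -/
def IsHStar {n : ℕ} (P : Set (Fin n → ℝ)) (h : Polynomial ℤ) : Prop :=
  h.natDegree ≤ dim P ∧
  PowerSeries.mk (fun t : ℕ => ((latticePoints P t).ncard : ℤ)) *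
    (1 - PowerSeries.X) ^ (dim P + 1) = (h : PowerSeries ℤ)

/-- the polynomial `∑_{j ≤ d} h_j z^j` is unimodal: `h_0 ≤ ... ≤ h_k ≥ h_(k+1) ≥ ... ≥ h_d` for
some `k` -/
def Unimodal (d : ℕ) (h : Polynomial ℤ) : Prop :=
  ∃ k : ℕ, k ≤ d ∧ (∀ j, j < k → h.coeff j ≤ h.coeff (j + 1)) ∧
    (∀ j, k ≤ j → j < d → h.coeff (j + 1) ≤ h.coeff j)

/-- the polytope of all `(v, w)` in `ℝ^18 × ℝ^18 = ℝ^36` with `v_j ≥ 0`, `v_1 + ... + v_18 ≤ 1`
and `0 ≤ w_j ≤ 1000 (1 - (v_1 + ... + v_18) + 14 v_j)` for all `j` -/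
def P36 : Set (Fin (18 + 18) → ℝ) :=
  {x | (∀ j : Fin 18, 0 ≤ x (Fin.castAdd 18 j)) ∧ (∑ i : Fin 18, x (Fin.castAdd 18 i) ≤ 1) ∧
    ∀ j : Fin 18, 0 ≤ x (Fin.natAdd 18 j) ∧
      x (Fin.natAdd 18 j) ≤
        1000 * (1 - ∑ i : Fin 18, x (Fin.castAdd 18 i) + 14 * x (Fin.castAdd 18 j))}

/-- **The conjecture of Schepers and Van Langenhoven is false.** The explicit polytope `P36` in
`ℝ^36` is a lattice polytope of dimension 36 with the integer decomposition property, and its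
h*-polynomial `h` is not unimodal: `h_16 > h_17 < h_18`. -/
theorem result :
    IsLatticePolytope P36 ∧ dim P36 = 36 ∧ IsIDP P36 ∧
    ∃ h : Polynomial ℤ, IsHStar P36 h ∧ h.coeff 17 < h.coeff 16 ∧ h.coeff 17 < h.coeff 18 ∧
      ¬ Unimodal (dim P36) h := by
  have hP : P36 = Pool.Agent.Lib_helper99.IDP.PP 18 1000 14 := by
    ext x
    rw [Pool.Agent.Lib_helper99.IDP.mem_PP]
    unfold P36 Pool.Agent.Lib_helper99.IDP.Con Pool.Agent.Lib_helper99.IDP.iL
      Pool.Agent.Lib_helper99.IDP.iR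
    simp only [Set.mem_ofPred_eq]
    constructor
    · rintro ⟨h1, h2, h3⟩
      exact ⟨h1, h2, fun j => (h3 j).1, fun j => by have := (h3 j).2; push_cast; linarith⟩
    · rintro ⟨h1, h2, h3, h4⟩
      exact ⟨h1, h2, fun j => ⟨h3 j, by have := h4 j; push_cast at this; linarith⟩⟩
  have hdim : dim P36 = 36 := by
    unfold dim
    rw [hP, direction_affineSpan, Pool.Agent.Lib_helper99.IDP.dim_PP 18 1000 14 (by norm_num)]
  have hpts : ∀ t : ℕ, latticePoints P36 t =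
      {z : Fin (18 + 18) → ℤ | Pool.Agent.Lib_helper99.IDP.ConZ 18 1000 14 (t : ℤ) z} := by
    intro t
    ext z
    rw [Set.mem_ofPred_eq, ← Pool.Agent.Lib_helper99.IDP.mem_smul_PP_int, hP]
    unfold latticePoints pt
    rw [Set.mem_ofPred_eq, Set.mem_smul_set]
    constructor
    · rintro ⟨p, h1, h2⟩
      exact ⟨p, h1, h2.symm⟩
    · rintro ⟨p, h1, h2⟩
      exact ⟨p, h1, h2.symm⟩
  refine ⟨⟨(Pool.Agent.Lib_helper99.IDP.Sv 18 1000 14 : Set (Fin (18 + 18) → ℤ)),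
      Finset.finite_toSet _, Finset.coe_nonempty.2
        (Pool.Agent.Lib_helper99.IDP.Sv_nonempty 18 1000 14), ?_⟩, hdim, ?_, ?_⟩
  · rw [hP]
    rfl
  · intro t _ x hx
    rw [hpts] at hx
    obtain ⟨f, hf, hs⟩ := Pool.Agent.Lib_helper99.IDP.idp 18 1000 14 t x hx
    refine ⟨f, fun i => ?_, hs.symm⟩
    rw [hP]
    exact (Pool.Agent.Lib_helper99.IDP.mem_PP_int 18 1000 14 (f i)).2 (hf i)
  · have n1 := Pool.Agent.Lib_helper99.IDP.num1
    have n2 := Pool.Agent.Lib_helper99.IDP.num2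
    rw [← Pool.Agent.Lib_helper99.IDP.hpoly_coeff, ← Pool.Agent.Lib_helper99.IDP.hpoly_coeff]
      at n1 n2
    refine ⟨Pool.Agent.Lib_helper99.IDP.hpoly 18 1000 14, ⟨?_, ?_⟩, n1, n2, ?_⟩
    · rw [hdim]
      exact (Pool.Agent.Lib_helper99.IDP.hpoly_deg 18 1000 14).trans (by norm_num)
    · rw [hdim, ← Pool.Agent.Lib_helper99.IDP.hpoly_series]
      congr 1
      ext t
      rw [PowerSeries.coeff_mk, PowerSeries.coeff_mk, hpts]
    · rintro ⟨k, _, h1, h2⟩
      rcases Nat.lt_or_ge 16 k with hk | hk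
      · have := h1 16 hk
        have e : 16 + 1 = 17 := rfl
        rw [e] at this
        exact absurd n1 (not_lt.2 this)
      · have := h2 17 (by omega) (by rw [hdim]; norm_num)
        have e : 17 + 1 = 18 := rfl
        rw [e] at this
        exact absurd n2 (not_lt.2 this)

end Pool.Agent.Results.MP_2302e2_co.IdpNotUnimodal
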